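import Pool.Agent.H93.CP.Targets

/-!
# Row ONE (board cpt_modules)
-/

set_option autoImplicit false

open Set Filter Topology Pool.Agent.H93.CP

namespace Pool.Agent.H23.CPT

private theorem nonArch_sub (L : Type) [Group L] [TopologicalSpace L] (Γ : Subgroup L)
    (h : NonArch L) : NonArch Γ := by
  intro U hU
  rw [nhds_subtype_eq_comap, Filter.mem_comap] at hU
  obtain ⟨U', hU', hsub⟩ := hU
  obtain ⟨V, hVo, hVU⟩ := h U' hU'
  refine ⟨V.subgroupOf Γ, ?_, ?_⟩
  · exact hVo.preimage continuous_subtype_val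
  · intro x hx
    exact hsub (hVU hx)

theorem pf_ONE (hSYS : T_SYS) (hPCO : T_PCO) (hHTG : T_HTG) (hHPO : T_HPO) (hHNA : T_HNA)
    (hGCL : T_GCL) (hTRC : T_TRC) (hTPA : T_TPA) (hTPB : T_TPB) (hCAN : T_CAN)
    (hXOR : T_XOR) : T_ONE := by
  intro G X _ _ _ _ _ _ _ _ _ _
  rcases isEmpty_or_nonempty X with hX | hX
  · obtain ⟨τ, _, hτ⟩ := hXOR
    obtain ⟨h1, h2, _⟩ := hHTG (ℕ → Bool) Unit
    have h3 : PolishSpace (HC (ℕ → Bool) Unit) := hHPO (ℕ → Bool) Unit
    have hinv : ∀ x : ℕ → Bool, (τ x)⁻¹ • x = fun _ => false := by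
      intro x
      have : (τ x).h.symm x = fun _ => false := by
        rw [Homeomorph.symm_apply_eq]
        exact (hτ x).symm
      exact this
    have htr : ∀ x y : ℕ → Bool, ∃ g : HC (ℕ → Bool) Unit, g • x = y := by
      intro x y
      refine ⟨τ y * (τ x)⁻¹, ?_⟩
      rw [mul_smul, hinv x]
      exact hτ y
    refine ⟨HC (ℕ → Bool) Unit, inferInstance, inferInstance, h1, h3, inferInstance, h2, ?_, ?_,
      ?_⟩
    · intro _
      refine hHNA (ℕ → Bool) Unit ?_
      intro U hU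
      refine ⟨⊤, isOpen_univ, ?_⟩
      intro x _
      have hx : x = 1 := Subsingleton.elim _ _
      rw [hx]
      exact mem_of_mem_nhds hU
    · constructor
      · intro _
        exact ⟨∅, countable_empty, fun x => (hX.false x).elim⟩
      · intro _
        refine ⟨{fun _ => false}, countable_singleton _, fun x => ?_⟩
        obtain ⟨g, hg⟩ := htr x (fun _ => false)
        exact ⟨g, hg⟩
    · constructor
      · rintro ⟨f, _, hf⟩
        exfalso
        obtain ⟨g, hg⟩ := htr (f fun _ => false) (f fun _ => true)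
        refine hf (fun _ => false) (fun _ => true) ?_ g hg
        intro h
        have := congrFun h 0
        simp at this
      · rintro ⟨f, _, _⟩
        exact (hX.false (f fun _ => false)).elim
  · obtain ⟨Y⟩ := hSYS G X
    obtain ⟨hc1, hc2, hc3, hc4, hc5, _⟩ := hPCO G Y.S
    obtain ⟨h1, h2, _⟩ := hHTG Y.S.Path G
    have h3 : PolishSpace (HC Y.S.Path G) := hHPO Y.S.Path G
    have hcl := hGCL G X Y
    have h4 : PolishSpace Y.Γ := hcl.polishSpace
    letI : MeasurableSpace Y.S.Path := borel _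
    haveI : BorelSpace Y.S.Path := ⟨rfl⟩
    have hcont : Continuous (fun p : Y.Γ × Y.S.Path => p.1 • p.2) := by
      have e : (fun p : Y.Γ × Y.S.Path => p.1 • p.2) =
          (fun p : HC Y.S.Path G × Y.S.Path => p.1.h p.2) ∘
            (fun p : Y.Γ × Y.S.Path => ((p.1 : HC Y.S.Path G), p.2)) := rfl
      rw [e]
      exact h2.comp ((continuous_subtype_val.comp continuous_fst).prodMk continuous_snd)
    obtain ⟨Δ, i1, i2, i3, i4, i5, g1, g2, g3, g4⟩ := hCAN Y.S.Path Y.Γ hcont
    refine ⟨Δ, i1, i2, i3, i4, i5, g1, ?_, ?_, ?_⟩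
    · intro hG
      exact g2 (nonArch_sub _ Y.Γ (hHNA Y.S.Path G hG))
    · exact g3.trans (hTRC G X Y)
    · exact g4.trans ⟨hTPB G X Y, hTPA G X Y⟩

end Pool.Agent.H23.CPT
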