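import Pool.Agent.H93.CP.Targets

/-!
# Row STP (board cpt_modules)
-/

set_option autoImplicit false

open Set Filter Topology Pool.Agent.H93.CP

namespace Pool.Agent.H23.CPT

theorem pf_STP (hNES : T_NES) (hSML : T_SML) (hPWD : T_PWD) : T_STP := by
  intro G X _ _ _ _ H C s b' y' v q hs hb' hpt hq hv N hN
  obtain ⟨_, hprD, hWo, _, hF, _, _⟩ := hNES G X H C
  obtain ⟨_, _, hInf, hlen, _, hLegApp, hfinApp, _⟩ := hPWD G C.gr
  -- the choice of the element of D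
  have heff := H.eff y' v q (C.W s) hq (hWo s) hv
  have hnb : N ∩ {m' : G | ∀ z' : H.Y, m' • H.ι y' = H.ι z' → z' ∈ C.W s} ∈ 𝓝 q :=
    inter_mem hN heff
  obtain ⟨p0, hp0, hp0D⟩ := H.dD.exists_mem_open isOpen_interior
    ⟨q, mem_interior_iff_mem_nhds.2 hnb⟩
  have hp1 := interior_subset hp0D
  obtain ⟨p', hp'⟩ : ∃ p' : H.D, (p' : G) = p0 := ⟨⟨p0, hp0⟩, rfl⟩
  rw [← hp'] at hp1
  obtain ⟨hpN, hpe⟩ := hp1
  have hpW : p' • y' ∈ C.W s := hpe (p' • y') (H.smul p' y').symm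
  refine ⟨p', hpN, ?_⟩
  -- the open set around the point
  obtain ⟨i, hi⟩ : ∃ i, i = (C.gr.fin C.gr.root s).1 := ⟨_, rfl⟩
  obtain ⟨n, hn⟩ : ∃ n, n = (C.gr.fin C.gr.root s).2 := ⟨_, rfl⟩
  obtain ⟨O1, hO1c, hO1, hO1n⟩ : ∃ O1 : Set H.Y, closure O1 ⊆ C.W s ∧ IsOpen O1 ∧
      p' • y' ∈ O1 := by
    obtain ⟨t, ht1, ht2, ht3⟩ := exists_mem_nhds_isClosed_subset ((hWo s).mem_nhds hpW)
    exact ⟨interior t, (closure_minimal interior_subset ht2).trans ht3, isOpen_interior,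
      mem_interior_iff_mem_nhds.2 ht1⟩
  have hev1 : ∀ᶠ a in 𝓝 y', p' • a ∈ O1 :=
    (H.cont p').continuousAt.preimage_mem_nhds (hO1.mem_nhds hO1n)
  have hhalf : (0 : ℝ) < (1 / 2 : ℝ) ^ n / 2 := by positivity
  have hev2 : ∀ᶠ a in 𝓝 y', ∀ δ ∈ C.F n,
      dist ((δ * (C.prD s)⁻¹ * p') • a) ((δ * (C.prD s)⁻¹ * p') • y') < (1 / 2 : ℝ) ^ n / 2 := by
    rw [Filter.eventually_all_finite (C.fin n)]
    intro δ _
    exact Metric.continuousAt_iff'.1 (H.cont (δ * (C.prD s)⁻¹ * p')).continuousAt _ hhalf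
  obtain ⟨O2, hO2, hO2o, hO2m⟩ := mem_nhds_iff.1 (hev1.and hev2)
  obtain ⟨k1, hk1⟩ := hSML G X H C b' y' hb' hpt O2 hO2o hO2m
  -- the finite set of the elements c
  have hmono1 : ∀ m, C.F m ⊆ C.F (m + 1) := by
    intro m a ha
    have := C.mul m a 1 ha (C.one m)
    rwa [mul_one] at this
  have hmono : ∀ m m', m ≤ m' → C.F m ⊆ C.F m' := by
    intro m m' h
    induction h with
    | refl => exact Subset.rfl
    | step _ ih => exact ih.trans (hmono1 _)
  obtain ⟨k2, hk2⟩ : ∃ k2, ∀ δ ∈ C.F n, ∀ δ' ∈ C.F n,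
      δ * δ' * (C.prD s)⁻¹ * p' ∈ C.F k2 := by
    have hfin : (C.F n ×ˢ C.F n).Finite := (C.fin n).prod (C.fin n)
    have hall : ∀ x : H.D × H.D, ∃ m, x.1 * x.2 * (C.prD s)⁻¹ * p' ∈ C.F m := fun x => C.all _
    choose m hm using hall
    obtain ⟨k2, hk2⟩ := (hfin.image m).bddAbove
    refine ⟨k2, fun δ hδ δ' hδ' => ?_⟩
    have h1 : m (δ, δ') ≤ k2 := hk2 ⟨(δ, δ'), ⟨hδ, hδ'⟩, rfl⟩
    exact hmono _ _ h1 (hm (δ, δ'))
  refine ⟨max (n + 1) (max k1 (k2 + 1)), fun w hw hwl => ?_⟩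
  have hwleg : C.gr.Leg C.gr.root w := b'.2.leg w hw
  have hwn : n + 1 ≤ w.length := le_trans (le_max_left _ _) hwl
  have hwk1 : k1 ≤ w.length := le_trans (le_trans (le_max_left _ _) (le_max_right _ _)) hwl
  have hwk2 : k2 + 1 ≤ w.length := le_trans (le_trans (le_max_right _ _) (le_max_right _ _)) hwl
  have hWw : C.W w ⊆ O2 := hk1 w hw hwk1
  obtain ⟨d, hd⟩ : ∃ d : H.D, d = (C.prD s)⁻¹ * p' * C.prD w := ⟨_, rfl⟩
  have hmem : ∀ u ∈ C.B (C.gr.fin C.gr.root w).1, C.prD w • u ∈ C.W w := by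
    intro u hu
    exact ⟨u, hu, rfl⟩
  have hsd : ∀ u : H.Y, C.prD s • (d • u) = p' • (C.prD w • u) := by
    intro u
    rw [hd, smul_smul, smul_smul]
    congr 1
    group
  have hEP : C.EP (C.gr.fin C.gr.root s, d, C.gr.fin C.gr.root w) := by
    refine ⟨?_, ?_, ?_, ?_⟩
    · show (C.gr.fin C.gr.root s).2 < (C.gr.fin C.gr.root w).2
      have h1 : w.length ≤ (C.gr.fin C.gr.root w).2 := hlen w hwleg
      omega
    · show closure ((fun y : H.Y => d • y) '' C.B (C.gr.fin C.gr.root w).1) ⊆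
        C.B (C.gr.fin C.gr.root s).1
      have h1 : IsClosed ((fun y : H.Y => C.prD s • y) ⁻¹' closure O1) :=
        isClosed_closure.preimage (H.cont (C.prD s))
      have h2 : (fun y : H.Y => d • y) '' C.B (C.gr.fin C.gr.root w).1 ⊆
          (fun y : H.Y => C.prD s • y) ⁻¹' closure O1 := by
        rintro _ ⟨u, hu, rfl⟩
        apply subset_closure
        show C.prD s • (d • u) ∈ O1
        rw [hsd u]
        exact (hO2 (hWw (hmem u hu))).1
      intro x hx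
      have h3 : C.prD s • x ∈ closure O1 := closure_minimal h2 h1 hx
      obtain ⟨z, hz, hzx⟩ := hO1c h3
      have h4 : C.prD s • z = C.prD s • x := hzx
      have h5 : z = x := MulAction.injective (C.prD s) h4
      rw [← h5]
      exact hz
    · show ∀ δ ∈ C.F (C.gr.fin C.gr.root s).2, ∀ u ∈ C.B (C.gr.fin C.gr.root w).1,
        ∀ v ∈ C.B (C.gr.fin C.gr.root w).1,
        dist ((δ * d) • u) ((δ * d) • v) ≤ (1 / 2 : ℝ) ^ (C.gr.fin C.gr.root s).2
      rw [← hn]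
      intro δ hδ u hu v hv
      have e : ∀ a : H.Y, (δ * d) • a = (δ * (C.prD s)⁻¹ * p') • (C.prD w • a) := by
        intro a
        rw [hd, smul_smul]
        congr 1
        group
      have h1 := (hO2 (hWw (hmem u hu))).2 δ hδ
      have h2 := (hO2 (hWw (hmem v hv))).2 δ hδ
      rw [e u, e v]
      refine (dist_triangle_right _ _ ((δ * (C.prD s)⁻¹ * p') • y')).trans ?_
      linarith
    · show ∀ δ ∈ C.F (C.gr.fin C.gr.root s).2, ∀ δ' ∈ C.F (C.gr.fin C.gr.root s).2,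
        δ * δ' * d ∈ C.F (C.gr.fin C.gr.root w).2
      rw [← hn]
      intro δ hδ δ' hδ'
      obtain ⟨w1, e1, rfl⟩ : ∃ w1 e1, w = w1 ++ [e1] := by
        rcases List.eq_nil_or_concat w with h | ⟨w1, e1, h⟩
        · rw [h] at hwn
          simp at hwn
        · exact ⟨w1, e1, by rw [h, List.concat_eq_append]⟩
      have h1 := (hLegApp C.gr.root w1 [e1]).1 hwleg
      obtain ⟨hl1, hl2, _⟩ := h1
      have hw1len : k2 ≤ w1.length := by
        rw [List.length_append, List.length_singleton] at hwk2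
        omega
      have h2 : w1.length ≤ (C.gr.fin C.gr.root w1).2 := hlen w1 hl1
      have h3 : δ * δ' * (C.prD s)⁻¹ * p' ∈ C.F (C.gr.fin C.gr.root w1).2 :=
        hmono _ _ (hw1len.trans h2) (hk2 δ hδ δ' hδ')
      have h4 : C.prD w1 ∈ C.F (C.gr.fin C.gr.root w1).2 := hF w1 hl1
      have hsrc : e1.1.1 = C.gr.fin C.gr.root w1 := hl2
      have h5 := e1.2.2.2.2 _ (by rw [hsrc]; exact h3) _ (by rw [hsrc]; exact h4)
      have hft : C.gr.fin C.gr.root (w1 ++ [e1]) = e1.1.2.2 := by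
        rw [hfinApp]
        rfl
      rw [hft]
      have hpe1 : C.prD [e1] = e1.1.2.1 := by
        exact mul_one _
      have e2 : δ * δ' * d = δ * δ' * (C.prD s)⁻¹ * p' * C.prD w1 * e1.1.2.1 := by
        rw [hd, hprD, hpe1]
        group
      rw [e2]
      exact h5
  refine ⟨⟨(C.gr.fin C.gr.root s, d, C.gr.fin C.gr.root w), hEP⟩, ?_, ?_, ?_⟩
  · rw [hLegApp]
    exact ⟨hs, rfl, trivial⟩
  · rw [hfinApp]
    rfl
  · rw [hprD]
    have : C.prD [⟨(C.gr.fin C.gr.root s, d, C.gr.fin C.gr.root w), hEP⟩] = d := by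
      exact mul_one d
    rw [this, hd]
    group

end Pool.Agent.H23.CPT
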