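import Pool.Agent.H93.CP.Targets

/-!
# Row SYS (board cpt_modules)
-/

set_option autoImplicit false

open Set Filter Topology Pool.Agent.H93.CP

namespace Pool.Agent.H23.CPT

theorem pf_SYS (hGOO : T_GOO) (hSCH : T_SCH) (hNES : T_NES) (hPTU : T_PTU) (hPTR : T_PTR)
    (hPTC : T_PTC) (hPTS : T_PTS) (hZIG : T_ZIG) : T_SYS := by
  intro G X _ _ _ _ _ _ _ _ _ _ _
  classical
  obtain ⟨H⟩ := hGOO G X
  obtain ⟨C⟩ := hSCH G X H
  obtain ⟨y0⟩ := H.nY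
  obtain ⟨π, hπ⟩ : ∃ π : {b : C.gr.Path // C.gr.Inf b} → H.Y, ∀ b, C.Pt b.1 (π b) :=
    ⟨fun b => Classical.choose (hPTU G X H C b.1 b.2).exists,
      fun b => Classical.choose_spec (hPTU G X H C b.1 b.2).exists⟩
  have huni : ∀ (b : {b : C.gr.Path // C.gr.Inf b}) (y : H.Y), C.Pt b.1 y → π b = y :=
    fun b y hy => (hPTU G X H C b.1 b.2).unique (hπ b) hy
  have hcont : Continuous π := hPTC G X H C π hπ
  obtain ⟨P, hP⟩ : ∃ P : C.gr.Path → X, ∀ (b : C.gr.Path) (hb : C.gr.Inf b),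
      P b = H.ι (π ⟨b, hb⟩) :=
    ⟨fun b => if h : C.gr.Inf b then H.ι (π ⟨b, h⟩) else H.ι y0, fun b hb => dif_pos hb⟩
  have hpr := (hNES G X H C).1
  refine ⟨{ S := C.gr, P := P, meas := ?_, meet := ?_, rep := ?_, cl := ?_, zz := ?_ }⟩
  · have e : (fun b : {b : C.gr.Path // C.gr.Inf b} => P b.1) = H.ι ∘ π := by
      funext b
      exact hP b.1 b.2
    rw [e]
    exact H.meas.comp hcont.borel_measurable
  · intro x
    obtain ⟨g, y, hg⟩ := H.meet x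
    obtain ⟨b, hb, hpt⟩ := hPTS G X H C y
    refine ⟨g, b, hb, ?_⟩
    rw [hP b hb, huni ⟨b, hb⟩ y hpt, hg]
  · intro r r' y z hy hz hrep hfin
    have h1 := hPTR G X H C r r' y z (π ⟨y, hy⟩) hy hrep hfin (hπ ⟨y, hy⟩)
    rw [hP z hz, hP y hy, huni ⟨z, hz⟩ _ h1, H.smul, hpr, hpr]
    rfl
  · intro y z zn g gn hy hz hzn hz1 hg1 h
    rw [hP y hy, hP z hz]
    refine H.cl (π ⟨y, hy⟩) (π ⟨z, hz⟩) (fun n => π ⟨zn n, hzn n⟩) g gn ?_ hg1 ?_
    · refine (hcont.tendsto ⟨z, hz⟩).comp ?_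
      rw [tendsto_subtype_rng]
      exact hz1
    · intro n
      have := h n
      rw [hP y hy, hP (zn n) (hzn n)] at this
      exact this
  · intro b b' m hb hb' hm
    rw [hP b hb, hP b' hb'] at hm
    exact hZIG G X H C b b' (π ⟨b, hb⟩) (π ⟨b', hb'⟩) m hb hb' (hπ ⟨b, hb⟩)
      (hπ ⟨b', hb'⟩) hm

end Pool.Agent.H23.CPT
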